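import Pool.Agent.P.MP_bf0464_al.Br.Main

/-! The bound of Humphreys for the Lie algebra of a connected reductive group with simply connected
derived group in good characteristic. -/

namespace Pool.Agent.Results.MP_bf0464_al.Humphreys

open Pool.Agent.AG

attribute [local instance 100] LieRing.ofAssociativeRing

universe u

section Env

variable {k g : Type u} [Field k] [LieRing g] [LieAlgebra k g]

/-- The relations `x ^ p = x ^ [p] + χ(x) ^ p` in the universal enveloping algebra. -/
def Rel (p : ℕ) (pm : g → g) (χ : g →ₗ[k] k) (a b : UniversalEnvelopingAlgebra k g) : Prop :=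
  ∃ x : g, a = UniversalEnvelopingAlgebra.ι k x ^ p ∧
    b = UniversalEnvelopingAlgebra.ι k (pm x) + algebraMap k _ (χ x ^ p)

/-- The reduced enveloping algebra `u(g, χ)`. -/
abbrev RedEnv (p : ℕ) (pm : g → g) (χ : g →ₗ[k] k) : Type u := RingQuot (Rel p pm χ)

/-- A block: an indecomposable two-sided ideal that is a direct summand. -/
def IsBlock {A : Type u} [Ring A] (B : TwoSidedIdeal A) : Prop :=
  B ≠ ⊥ ∧ (∃ C, IsCompl B C) ∧ ∀ I J : TwoSidedIdeal A, Disjoint I J → I ⊔ J = B → I = ⊥ ∨ J = ⊥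

/-- Every block of `A` contains at most `n` isomorphism classes of simple modules; a simple
module `S` lies in the block `B` when `B S ≠ 0`. -/
def BlocksBounded (A : Type u) [Ring A] (n : ℕ) : Prop :=
  ∀ B : TwoSidedIdeal A, IsBlock B → ∀ (N : ℕ) (S : Fin N → Type u) [∀ i, AddCommGroup (S i)]
    [∀ i, Module A (S i)] [∀ i, IsSimpleModule A (S i)], (∀ i, ∃ b ∈ B, ∃ m : S i, b • m ≠ 0) →
      (∀ i j, Nonempty (S i ≃ₗ[A] S j) → i = j) → N ≤ n

end Env

theorem result {k : Type u} [Field k] [IsAlgClosed k] (p : ℕ) [Fact p.Prime] [CharP k p]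
    {n : ℕ} (G T B : Subgroup (GL (Fin n) k)) (hG : Red G) (hT : MaxTor G T) (hB : Borel G B)
    (hsc : SC ⁅G, G⁆) (hp : Good G T p) (χ : lie G →ₗ[k] k)
    (hχ : ∀ x : lie G, x.1 ∈ lie B → χ x = 0) :
    BlocksBounded (RedEnv p (pmap p G) χ)
      (T.relIndex (G ⊓ Subgroup.normalizer (T : Set (GL (Fin n) k)))) :=
  blocks_main p G T B hG hT hB hsc hp χ hχ

end Pool.Agent.Results.MP_bf0464_al.Humphreys
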